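import Mathlib

set_option autoImplicit false

namespace Pool.Agent.Results.MP_b0ae03_co.ParityFails

open SimpleGraph

/-! ### Game boards

A connected plane graph is given, as usual, by a combinatorial map: a rotation system (for every
vertex a cyclic order of the darts leaving it) whose Euler characteristic is that of the sphere,
together with the face that is the unbounded region. -/

/-- The face permutation of a rotation system: it sends the dart `u → v` to the next dart
`v → w` along the boundary of the face incident with `u → v`. -/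
def facePerm {n : ℕ} {G : SimpleGraph (Fin n)} (rot : Equiv.Perm G.Dart) : Equiv.Perm G.Dart :=
  (Function.Involutive.toPerm SimpleGraph.Dart.symm SimpleGraph.Dart.symm_involutive).trans rot

/-- A game board: a finite connected simple graph drawn in the plane. -/
structure Board where
  /-- number of vertices -/
  n : ℕ
  /-- the graph -/
  G : SimpleGraph (Fin n)
  conn : G.Connected
  /-- the rotation system: the next dart around the initial vertex -/
  rot : Equiv.Perm G.Dart
  rot_fst : ∀ d : G.Dart, (rot d).fst = d.fst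
  rot_cycle : ∀ d d' : G.Dart, d.fst = d'.fst → rot.SameCycle d d'
  /-- a dart of the face that is the unbounded region -/
  outer : G.Dart
  /-- Euler's formula `V + F = E + 2`: the drawing is in the sphere -/
  euler : n + Nat.card (Quotient (Equiv.Perm.SameCycle.setoid (facePerm rot))) =
    Nat.card G.edgeSet + 2

/-- Darts `d` and `d'` are on the boundary of the same region. -/
def Board.SameFace (B : Board) (d d' : B.G.Dart) : Prop := (facePerm B.rot).SameCycle d d'

/-! ### The Game of Cycles -/

/-- A position is the set of the arrows drawn so far: the dart `d = (u → v)` is in `M` if the edge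
`uv` is marked by an arrow from `u` to `v`. -/
def Legal (B : Board) (M : Set B.G.Dart) (d : B.G.Dart) : Prop :=
  -- the edge is unmarked
  d ∉ M ∧ d.symm ∉ M ∧
  -- the initial vertex of the new arrow does not become a source
  (¬ ∀ d' : B.G.Dart, d'.fst = d.fst → d' ∈ insert d M) ∧
  -- the final vertex of the new arrow does not become a sink
  (¬ ∀ d' : B.G.Dart, d'.snd = d.snd → d' ∈ insert d M)

/-- Some cell (bounded region) is a cycle cell: all its boundary edges are marked, all in the
direction in which the boundary is traversed or all in the opposite direction. -/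
def HasCycleCell (B : Board) (M : Set B.G.Dart) : Prop :=
  ∃ c : B.G.Dart, ¬ B.SameFace B.outer c ∧
    ((∀ d, B.SameFace c d → d ∈ M) ∨ (∀ d, B.SameFace c d → d.symm ∈ M))

mutual
/-- The player to move in position `M` has a winning strategy. -/
inductive MoverWins (B : Board) : Set B.G.Dart → Prop
  | cycle (M : Set B.G.Dart) (d : B.G.Dart) (h : Legal B M d) (hc : HasCycleCell B (insert d M)) :
      MoverWins B M
  | move (M : Set B.G.Dart) (d : B.G.Dart) (h : Legal B M d) (hl : MoverLoses B (insert d M)) :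
      MoverWins B M
/-- The player to move in position `M` loses against best play: none of his moves creates a cycle
cell and each of them (possibly there is none) leads to a position won by the opponent. -/
inductive MoverLoses (B : Board) : Set B.G.Dart → Prop
  | mk (M : Set B.G.Dart) (h : ∀ d, Legal B M d → ¬ HasCycleCell B (insert d M))
      (hw : ∀ d, Legal B M d → MoverWins B (insert d M)) : MoverLoses B M
end

/-- Player 1 has a winning strategy in the Game of Cycles on `B`. -/
def Player1Wins (B : Board) : Prop := MoverWins B ∅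

/-- Player 2 has a winning strategy in the Game of Cycles on `B`. -/
def Player2Wins (B : Board) : Prop := MoverLoses B ∅

/-! ### Encoding of positions by bit masks -/

/-- The set of darts of a mask. -/
def decode {B : Board} {N : ℕ} (E : Fin N ≃ B.G.Dart) (m : ℕ) : Set B.G.Dart :=
  {d | m.testBit (E.symm d) = true}

lemma insert_decode {B : Board} {N : ℕ} (E : Fin N ≃ B.G.Dart) (m : ℕ) (i : Fin N) :
    insert (E i) (decode E m) = decode E (m ||| 2 ^ (i : ℕ)) := by
  ext d
  obtain ⟨j, rfl⟩ := E.surjective d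
  simp only [Set.mem_insert_iff, decode, Set.mem_ofPred_eq, Equiv.symm_apply_apply, Nat.testBit_or,
    Nat.testBit_two_pow, Bool.or_eq_true, decide_eq_true_eq, EmbeddingLike.apply_eq_iff_eq]
  constructor
  · rintro (h | h)
    · right; rw [h]
    · left; exact h
  · rintro (h | h)
    · right; exact h
    · left; exact (Fin.ext h).symm

/-- Data for the computation. -/
structure Tab where
  /-- darts with the same initial vertex -/
  out : List ℕ
  /-- darts with the same final vertex -/
  inn : List ℕ
  /-- for each cell the mask of its darts and the mask of the reversed darts -/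
  cells : List ℕ

/-- legality of a move -/
def Tab.legal (T : Tab) (m i : ℕ) : Bool :=
  !(m.testBit i) && !(m.testBit (i ^^^ 1)) &&
    !((m ||| 2 ^ i) &&& T.out.getD i 0 == T.out.getD i 0) &&
    !((m ||| 2 ^ i) &&& T.inn.getD i 0 == T.inn.getD i 0)

/-- existence of a cycle cell -/
def Tab.cyc (T : Tab) (m : ℕ) : Bool := T.cells.any fun c => m &&& c == c

/-- `L` is a set of positions from which the player to move loses. -/
def Tab.check (T : Tab) (N : ℕ) (L : List ℕ) : Bool :=
  L.all fun m => (List.range N).all fun i =>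
    !(T.legal m i) || (!(T.cyc (m ||| 2 ^ i)) &&
      (List.range N).any fun j => T.legal (m ||| 2 ^ i) j &&
        (T.cyc (m ||| 2 ^ i ||| 2 ^ j) || L.contains (m ||| 2 ^ i ||| 2 ^ j)))

lemma land_eq_iff (m K : ℕ) : m &&& K = K ↔ ∀ j, K.testBit j = true → m.testBit j = true := by
  constructor
  · intro h j hj
    rw [← h, Nat.testBit_and] at hj
    exact (Bool.and_eq_true _ _ ▸ hj).1
  · intro h
    apply Nat.eq_of_testBit_eq
    intro j
    rw [Nat.testBit_and]
    cases hK : K.testBit j
    · simp
    · simp [h j hK]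

/-- The table `T` describes the board `B` in the encoding `E`. -/
structure Describes (T : Tab) (B : Board) {N : ℕ} (E : Fin N ≃ B.G.Dart) : Prop where
  symm : ∀ i : Fin N, ((E.symm (E i).symm : Fin N) : ℕ) = (i : ℕ) ^^^ 1
  out : ∀ i : Fin N, ∀ j : ℕ, (T.out.getD i 0).testBit j = true ↔
    ∃ j' : Fin N, (j' : ℕ) = j ∧ (E j').fst = (E i).fst
  inn : ∀ i : Fin N, ∀ j : ℕ, (T.inn.getD i 0).testBit j = true ↔
    ∃ j' : Fin N, (j' : ℕ) = j ∧ (E j').snd = (E i).snd
  cell₁ : ∀ c ∈ T.cells, ∃ f : B.G.Dart, ¬ B.SameFace B.outer f ∧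
    ((∀ j : ℕ, c.testBit j = true ↔ ∃ j' : Fin N, (j' : ℕ) = j ∧ B.SameFace f (E j')) ∨
     (∀ j : ℕ, c.testBit j = true ↔ ∃ j' : Fin N, (j' : ℕ) = j ∧ B.SameFace f (E j').symm))
  cell₂ : ∀ f : B.G.Dart, ¬ B.SameFace B.outer f → ∃ c ∈ T.cells, ∃ c' ∈ T.cells,
    (∀ j : ℕ, c.testBit j = true ↔ ∃ j' : Fin N, (j' : ℕ) = j ∧ B.SameFace f (E j')) ∧
    (∀ j : ℕ, c'.testBit j = true ↔ ∃ j' : Fin N, (j' : ℕ) = j ∧ B.SameFace f (E j').symm)

section

variable {T : Tab} {B : Board} {N : ℕ} {E : Fin N ≃ B.G.Dart}

lemma mem_decode (m : ℕ) (i : Fin N) : E i ∈ decode E m ↔ m.testBit i = true := by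
  simp [decode]

lemma land_fst (D : Describes T B E) (m : ℕ) (i : Fin N) :
    (m &&& T.out.getD i 0 = T.out.getD i 0) ↔
      ∀ d' : B.G.Dart, d'.fst = (E i).fst → d' ∈ decode E m := by
  rw [land_eq_iff]
  constructor
  · intro h d' hd'
    obtain ⟨j, rfl⟩ := E.surjective d'
    rw [mem_decode]
    exact h j ((D.out i j).2 ⟨j, rfl, hd'⟩)
  · intro h j hj
    obtain ⟨j', rfl, hj'⟩ := (D.out i j).1 hj
    exact (mem_decode m j').1 (h _ hj')

lemma land_snd (D : Describes T B E) (m : ℕ) (i : Fin N) :
    (m &&& T.inn.getD i 0 = T.inn.getD i 0) ↔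
      ∀ d' : B.G.Dart, d'.snd = (E i).snd → d' ∈ decode E m := by
  rw [land_eq_iff]
  constructor
  · intro h d' hd'
    obtain ⟨j, rfl⟩ := E.surjective d'
    rw [mem_decode]
    exact h j ((D.inn i j).2 ⟨j, rfl, hd'⟩)
  · intro h j hj
    obtain ⟨j', rfl, hj'⟩ := (D.inn i j).1 hj
    exact (mem_decode m j').1 (h _ hj')

lemma symm_mem (D : Describes T B E) (m : ℕ) (i : Fin N) :
    (E i).symm ∈ decode E m ↔ m.testBit ((i : ℕ) ^^^ 1) = true := by
  rw [← D.symm i]
  rfl

lemma legal_iff (D : Describes T B E) (m : ℕ) (i : Fin N) :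
    Legal B (decode E m) (E i) ↔ T.legal m i = true := by
  unfold Legal Tab.legal
  rw [insert_decode, ← land_fst D, ← land_snd D, symm_mem D, mem_decode]
  simp only [Bool.and_eq_true, Bool.not_eq_true', beq_eq_false_iff_ne, ne_eq, Bool.not_eq_true]
  tauto

lemma cyc_iff (D : Describes T B E) (m : ℕ) :
    HasCycleCell B (decode E m) ↔ T.cyc m = true := by
  unfold HasCycleCell Tab.cyc
  rw [List.any_eq_true]
  constructor
  · rintro ⟨f, hf, hor⟩
    obtain ⟨c, hc, c', hc', h1, h2⟩ := D.cell₂ f hf
    rcases hor with h | h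
    · refine ⟨c, hc, ?_⟩
      rw [beq_iff_eq, land_eq_iff]
      intro j hj
      obtain ⟨j', rfl, hj'⟩ := (h1 j).1 hj
      exact (mem_decode m j').1 (h _ hj')
    · refine ⟨c', hc', ?_⟩
      rw [beq_iff_eq, land_eq_iff]
      intro j hj
      obtain ⟨j', rfl, hj'⟩ := (h2 j).1 hj
      have := h _ hj'
      rw [SimpleGraph.Dart.symm_symm] at this
      exact (mem_decode m j').1 this
  · rintro ⟨c, hc, h⟩
    rw [beq_iff_eq, land_eq_iff] at h
    obtain ⟨f, hf, hor⟩ := D.cell₁ c hc
    refine ⟨f, hf, ?_⟩
    rcases hor with h1 | h1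
    · left
      intro d hd
      obtain ⟨j, rfl⟩ := E.surjective d
      rw [mem_decode]
      exact h j ((h1 j).2 ⟨j, rfl, hd⟩)
    · right
      intro d hd
      obtain ⟨j, hj⟩ := E.surjective d.symm
      rw [← hj, mem_decode]
      refine h j ((h1 j).2 ⟨j, rfl, ?_⟩)
      rw [hj, SimpleGraph.Dart.symm_symm]
      exact hd

lemma legal_lt {m i : ℕ} (h : T.legal m i = true) : m < m ||| 2 ^ i := by
  have hi : m.testBit i = false := by
    unfold Tab.legal at h
    simp only [Bool.and_eq_true, Bool.not_eq_true'] at h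
    exact h.1.1.1
  refine lt_of_le_of_ne (Nat.left_le_or) ?_
  intro heq
  rw [heq, Nat.testBit_or, Nat.testBit_two_pow_self] at hi
  simp at hi

/-- Soundness of the check. -/
theorem sound (D : Describes T B E) (L : List ℕ) (hcheck : T.check N L = true) :
    ∀ k m : ℕ, m < 2 ^ N → 2 ^ N - m ≤ k → m ∈ L → MoverLoses B (decode E m) := by
  intro k
  induction k with
  | zero => intro m h1 h2; omega
  | succ k ih =>
    intro m hm hk hL
    unfold Tab.check at hcheck
    rw [List.all_eq_true] at hcheck
    have h1 := hcheck m hL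
    rw [List.all_eq_true] at h1
    have key : ∀ i : Fin N, Legal B (decode E m) (E i) →
        T.cyc (m ||| 2 ^ (i : ℕ)) = false ∧ ∃ j, j < N ∧ T.legal (m ||| 2 ^ (i : ℕ)) j = true ∧
          (T.cyc (m ||| 2 ^ (i : ℕ) ||| 2 ^ j) = true ∨ (m ||| 2 ^ (i : ℕ) ||| 2 ^ j) ∈ L) := by
      intro i hi
      rw [legal_iff D] at hi
      have h2 := h1 i (List.mem_range.2 i.2)
      rw [hi] at h2
      simp only [Bool.not_true, Bool.false_or, Bool.and_eq_true, Bool.not_eq_true',
        List.any_eq_true, Bool.or_eq_true, List.contains_iff_mem, List.mem_range] at h2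
      exact h2
    refine MoverLoses.mk _ ?_ ?_
    · intro d hd
      obtain ⟨i, rfl⟩ := E.surjective d
      obtain ⟨h2, _⟩ := key i hd
      rw [insert_decode, cyc_iff D, h2]
      simp
    · intro d hd
      obtain ⟨i, rfl⟩ := E.surjective d
      obtain ⟨_, j, hj, h3, h4⟩ := key i hd
      rw [insert_decode]
      have hleg : Legal B (decode E (m ||| 2 ^ (i : ℕ))) (E ⟨j, hj⟩) := (legal_iff D _ _).2 h3
      rcases h4 with h4 | h4
      · refine MoverWins.cycle _ _ hleg ?_
        rw [insert_decode, cyc_iff D]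
        exact h4
      · refine MoverWins.move _ _ hleg ?_
        rw [insert_decode]
        have hi : T.legal m i = true := (legal_iff D _ _).1 hd
        have l1 : m < m ||| 2 ^ (i : ℕ) := legal_lt hi
        have l2 : m ||| 2 ^ (i : ℕ) < m ||| 2 ^ (i : ℕ) ||| 2 ^ j := legal_lt h3
        have l3 : m ||| 2 ^ (i : ℕ) ||| 2 ^ j < 2 ^ N :=
          Nat.or_lt_two_pow (Nat.or_lt_two_pow hm (Nat.pow_lt_pow_right (by norm_num) i.2))
            (Nat.pow_lt_pow_right (by norm_num) hj)
        have hk' : 2 ^ N - (m ||| 2 ^ (i : ℕ) ||| 2 ^ j) ≤ k := by omega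
        exact ih _ l3 hk' h4

end

/-! ### Boards given by tables -/

/-- A board given by tables: `N` darts, `n` vertices and `F` faces. -/
structure Raw (n N F : ℕ) where
  src : Fin N → Fin n
  tgt : Fin N → Fin n
  sym : Fin N → Fin N
  rot : Fin N → Fin N
  rotInv : Fin N → Fin N
  lab : Fin N → Fin F
  out₀ : Fin N

/-- The conditions on the tables. -/
structure Raw.Good {n N F : ℕ} (R : Raw n N F) : Prop where
  inj : ∀ i j, R.src i = R.src j → R.tgt i = R.tgt j → i = j
  ne : ∀ i, R.src i ≠ R.tgt i
  sym_src : ∀ i, R.src (R.sym i) = R.tgt i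
  sym_tgt : ∀ i, R.tgt (R.sym i) = R.src i
  pos : 0 < n
  par : ∀ v : Fin n, (v : ℕ) ≠ 0 → ∃ i, R.src i = v ∧ (R.tgt i : ℕ) < v
  left : ∀ i, R.rotInv (R.rot i) = i
  right : ∀ i, R.rot (R.rotInv i) = i
  rot_src : ∀ i, R.src (R.rot i) = R.src i
  rot_cyc : ∀ i j, R.src i = R.src j → ∃ k : Fin 6, R.rot^[k] i = j
  lab_face : ∀ i, R.lab (R.rot (R.sym i)) = R.lab i
  lab_cyc : ∀ i j, R.lab i = R.lab j → ∃ k : Fin 10, (fun x => R.rot (R.sym x))^[k] i = j
  lab_surj : ∀ l, ∃ i, R.lab i = l
  eul : n + F = N / 2 + 2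
  even : N % 2 = 0

namespace Raw

variable {n N F : ℕ} (R : Raw n N F) (H : R.Good)

/-- the graph -/
def graph (H : R.Good) : SimpleGraph (Fin n) where
  Adj u v := ∃ i, R.src i = u ∧ R.tgt i = v
  symm := ⟨by
    rintro u v ⟨i, rfl, rfl⟩
    exact ⟨R.sym i, H.sym_src i, H.sym_tgt i⟩⟩
  loopless := ⟨by
    rintro u ⟨i, h1, h2⟩
    exact H.ne i (h1.trans h2.symm)⟩

/-- enumeration of the darts -/
def toDart (i : Fin N) : (R.graph H).Dart := ⟨(R.src i, R.tgt i), ⟨i, rfl, rfl⟩⟩

lemma toDart_bij : Function.Bijective (R.toDart H) := by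
  constructor
  · intro i j h
    have h1 : R.src i = R.src j := congrArg (fun d => d.fst) h
    have h2 : R.tgt i = R.tgt j := congrArg (fun d => d.snd) h
    exact H.inj i j h1 h2
  · rintro ⟨⟨u, v⟩, ⟨i, h1, h2⟩⟩
    refine ⟨i, ?_⟩
    apply SimpleGraph.Dart.ext
    exact Prod.ext h1 h2

/-- enumeration of the darts -/
noncomputable def enum : Fin N ≃ (R.graph H).Dart := Equiv.ofBijective _ (R.toDart_bij H)

lemma enum_fst (i : Fin N) : (R.enum H i).fst = R.src i := rfl
lemma enum_snd (i : Fin N) : (R.enum H i).snd = R.tgt i := rfl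

lemma enum_symm (i : Fin N) : (R.enum H i).symm = R.enum H (R.sym i) := by
  apply SimpleGraph.Dart.ext
  exact Prod.ext (H.sym_src i).symm (H.sym_tgt i).symm

/-- the rotation on the indices -/
def rotP : Equiv.Perm (Fin N) := ⟨R.rot, R.rotInv, H.left, H.right⟩

/-- the rotation -/
noncomputable def rotD : Equiv.Perm (R.graph H).Dart := (R.enum H).permCongr (R.rotP H)

lemma rotD_enum (i : Fin N) : R.rotD H (R.enum H i) = R.enum H (R.rot i) := by
  simp [rotD, rotP]

lemma face_enum (i : Fin N) :
    facePerm (R.rotD H) (R.enum H i) = R.enum H (R.rot (R.sym i)) := by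
  show R.rotD H (R.enum H i).symm = _
  rw [enum_symm, rotD_enum]

lemma pow_enum (p : Equiv.Perm (R.graph H).Dart) (f : Fin N → Fin N)
    (hpf : ∀ i, p (R.enum H i) = R.enum H (f i)) (k : ℕ) (i : Fin N) :
    (p ^ k) (R.enum H i) = R.enum H (f^[k] i) := by
  induction k generalizing i with
  | zero => rfl
  | succ k ih =>
    rw [pow_succ, Equiv.Perm.mul_apply, hpf, ih, Function.iterate_succ_apply]

lemma sameFace_iff (i j : Fin N) :
    (facePerm (R.rotD H)).SameCycle (R.enum H i) (R.enum H j) ↔ R.lab i = R.lab j := by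
  constructor
  · rintro ⟨z, hz⟩
    have hinv : ∀ d, R.lab ((R.enum H).symm (facePerm (R.rotD H) d)) =
        R.lab ((R.enum H).symm d) := by
      intro d
      obtain ⟨i, rfl⟩ := (R.enum H).surjective d
      rw [face_enum, Equiv.symm_apply_apply, Equiv.symm_apply_apply, H.lab_face]
    have hz' : ∀ z : ℤ, ∀ d, R.lab ((R.enum H).symm ((facePerm (R.rotD H) ^ z) d)) =
        R.lab ((R.enum H).symm d) := by
      intro z
      induction z using Int.induction_on with
      | zero => intro d; rfl
      | succ k ih => intro d; rw [zpow_add_one, Equiv.Perm.mul_apply, ih, hinv]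
      | pred k ih =>
        intro d
        rw [zpow_sub_one, Equiv.Perm.mul_apply, ih, ← hinv]
        congr 2
        exact (facePerm (R.rotD H)).apply_symm_apply d
    have := hz' z (R.enum H i)
    rw [hz, Equiv.symm_apply_apply, Equiv.symm_apply_apply] at this
    exact this.symm
  · intro h
    obtain ⟨k, hk⟩ := H.lab_cyc i j h
    refine ⟨(k : ℕ), ?_⟩
    rw [zpow_natCast, R.pow_enum H _ _ (R.face_enum H), hk]

lemma sameFace_symm_iff (i j : Fin N) :
    (facePerm (R.rotD H)).SameCycle (R.enum H i) (R.enum H j).symm ↔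
      R.lab i = R.lab (R.sym j) := by
  rw [enum_symm]
  exact R.sameFace_iff H i (R.sym j)

lemma conn : (R.graph H).Connected := by
  have h0 : ∀ m : ℕ, ∀ v : Fin n, (v : ℕ) = m → (R.graph H).Reachable v ⟨0, H.pos⟩ := by
    intro m
    induction m using Nat.strong_induction_on with
    | _ m ih =>
      intro v hv
      by_cases hm : m = 0
      · have : v = ⟨0, H.pos⟩ := Fin.ext (by rw [hv, hm])
        rw [this]
      · obtain ⟨i, hi1, hi2⟩ := H.par v (by omega)
        have hadj : (R.graph H).Adj v (R.tgt i) := ⟨i, hi1, rfl⟩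
        exact hadj.reachable.trans (ih _ (by omega) _ rfl)
  have : Nonempty (Fin n) := ⟨⟨0, H.pos⟩⟩
  exact ⟨fun u v => (h0 _ u rfl).trans (h0 _ v rfl).symm⟩

lemma card_faces :
    Nat.card (Quotient (Equiv.Perm.SameCycle.setoid (facePerm (R.rotD H)))) = F := by
  have hinv : ∀ d d', (facePerm (R.rotD H)).SameCycle d d' →
      R.lab ((R.enum H).symm d) = R.lab ((R.enum H).symm d') := by
    intro d d' h
    obtain ⟨i, rfl⟩ := (R.enum H).surjective d
    obtain ⟨j, rfl⟩ := (R.enum H).surjective d'
    rw [Equiv.symm_apply_apply, Equiv.symm_apply_apply]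
    exact (R.sameFace_iff H i j).1 h
  let φ : Quotient (Equiv.Perm.SameCycle.setoid (facePerm (R.rotD H))) → Fin F :=
    Quotient.lift (fun d => R.lab ((R.enum H).symm d)) hinv
  have hb : Function.Bijective φ := by
    constructor
    · intro a b hab
      induction a using Quotient.inductionOn with
      | _ d =>
        induction b using Quotient.inductionOn with
        | _ d' =>
          apply Quotient.sound
          obtain ⟨i, rfl⟩ := (R.enum H).surjective d
          obtain ⟨j, rfl⟩ := (R.enum H).surjective d'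
          refine (R.sameFace_iff H i j).2 ?_
          have : R.lab ((R.enum H).symm (R.enum H i)) = R.lab ((R.enum H).symm (R.enum H j)) := hab
          rwa [Equiv.symm_apply_apply, Equiv.symm_apply_apply] at this
    · intro l
      obtain ⟨i, hi⟩ := H.lab_surj l
      refine ⟨Quotient.mk _ (R.enum H i), ?_⟩
      show R.lab ((R.enum H).symm (R.enum H i)) = l
      rw [Equiv.symm_apply_apply, hi]
  rw [Nat.card_eq_of_bijective φ hb, Nat.card_fin]

lemma card_edges : Nat.card (R.graph H).edgeSet = N / 2 := by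
  classical
  have h1 := (R.graph H).dart_card_eq_twice_card_edges
  have h2 : Fintype.card (R.graph H).Dart = N := by
    rw [← Fintype.card_congr (R.enum H), Fintype.card_fin]
  rw [h2] at h1
  rw [Nat.card_eq_fintype_card, ← SimpleGraph.edgeFinset_card]
  omega

/-- the board -/
noncomputable def board : Board where
  n := n
  G := R.graph H
  conn := R.conn H
  rot := R.rotD H
  rot_fst := by
    intro d
    obtain ⟨i, rfl⟩ := (R.enum H).surjective d
    rw [rotD_enum, enum_fst, enum_fst, H.rot_src]
  rot_cycle := by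
    intro d d' h
    obtain ⟨i, rfl⟩ := (R.enum H).surjective d
    obtain ⟨j, rfl⟩ := (R.enum H).surjective d'
    rw [enum_fst, enum_fst] at h
    obtain ⟨k, hk⟩ := H.rot_cyc i j h
    refine ⟨(k : ℕ), ?_⟩
    rw [zpow_natCast, R.pow_enum H _ _ (R.rotD_enum H), hk]
  outer := R.enum H R.out₀
  euler := by rw [card_faces, card_edges, H.eul]

/-- The conditions on the masks. -/
structure Match (R : Raw n N F) (T : Tab) (cm cm' : Fin F → ℕ) : Prop where
  symx : ∀ i : Fin N, (R.sym i : ℕ) = (i : ℕ) ^^^ 1
  out_lt : ∀ i : Fin N, T.out.getD i 0 < 2 ^ N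
  out : ∀ i j : Fin N, (T.out.getD i 0).testBit j = true ↔ R.src j = R.src i
  inn_lt : ∀ i : Fin N, T.inn.getD i 0 < 2 ^ N
  inn : ∀ i j : Fin N, (T.inn.getD i 0).testBit j = true ↔ R.tgt j = R.tgt i
  cm_lt : ∀ l, cm l < 2 ^ N
  cm_eq : ∀ l, ∀ j : Fin N, (cm l).testBit j = true ↔ R.lab j = l
  cm'_lt : ∀ l, cm' l < 2 ^ N
  cm'_eq : ∀ l, ∀ j : Fin N, (cm' l).testBit j = true ↔ R.lab (R.sym j) = l
  mem₁ : ∀ c ∈ T.cells, ∃ l, l ≠ R.lab R.out₀ ∧ (c = cm l ∨ c = cm' l)
  mem₂ : ∀ l, l ≠ R.lab R.out₀ → cm l ∈ T.cells ∧ cm' l ∈ T.cells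

lemma testBit_exists {x : ℕ} (hx : x < 2 ^ N) {P : Fin N → Prop}
    (h : ∀ j : Fin N, x.testBit j = true ↔ P j) (j : ℕ) :
    x.testBit j = true ↔ ∃ j' : Fin N, (j' : ℕ) = j ∧ P j' := by
  constructor
  · intro hj
    have hjN : j < N := by
      by_contra hcon
      push Not at hcon
      have : x.testBit j = false :=
        Nat.testBit_lt_two_pow (lt_of_lt_of_le hx (Nat.pow_le_pow_right (by norm_num) hcon))
      rw [this] at hj
      exact absurd hj (by simp)
    exact ⟨⟨j, hjN⟩, rfl, (h ⟨j, hjN⟩).1 hj⟩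
  · rintro ⟨j', rfl, hj'⟩
    exact (h j').2 hj'

lemma describes {T : Tab} {cm cm' : Fin F → ℕ} (M : R.Match T cm cm') :
    Describes T (R.board H) (R.enum H) where
  symm := by
    intro i
    have h := congrArg (R.enum H).symm (R.enum_symm H i)
    rw [Equiv.symm_apply_apply] at h
    exact (congrArg Fin.val h).trans (M.symx i)
  out := by
    intro i j
    exact testBit_exists (M.out_lt i) (P := fun j' => R.src j' = R.src i) (M.out i) j
  inn := by
    intro i j
    exact testBit_exists (M.inn_lt i) (P := fun j' => R.tgt j' = R.tgt i) (M.inn i) j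
  cell₁ := by
    intro c hc
    obtain ⟨l, hl, hor⟩ := M.mem₁ c hc
    obtain ⟨i, hi⟩ := H.lab_surj l
    refine ⟨R.enum H i, ?_, ?_⟩
    · intro h
      have := (R.sameFace_iff H R.out₀ i).1 h
      exact hl (by rw [← hi, ← this])
    · rcases hor with rfl | rfl
      · left
        intro j
        rw [testBit_exists (M.cm_lt l) (M.cm_eq l) j]
        constructor
        · rintro ⟨j', h1, h2⟩
          exact ⟨j', h1, (R.sameFace_iff H i j').2 (hi.trans h2.symm)⟩
        · rintro ⟨j', h1, h2⟩
          exact ⟨j', h1, by rw [← hi]; exact ((R.sameFace_iff H i j').1 h2).symm⟩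
      · right
        intro j
        rw [testBit_exists (M.cm'_lt l) (M.cm'_eq l) j]
        constructor
        · rintro ⟨j', h1, h2⟩
          exact ⟨j', h1, (R.sameFace_symm_iff H i j').2 (hi.trans h2.symm)⟩
        · rintro ⟨j', h1, h2⟩
          exact ⟨j', h1, by rw [← hi]; exact ((R.sameFace_symm_iff H i j').1 h2).symm⟩
  cell₂ := by
    intro f hf
    obtain ⟨i, rfl⟩ := (R.enum H).surjective f
    have hne : R.lab i ≠ R.lab R.out₀ := fun h => hf ((R.sameFace_iff H R.out₀ i).2 h.symm)
    obtain ⟨h1, h2⟩ := M.mem₂ _ hne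
    refine ⟨_, h1, _, h2, ?_, ?_⟩
    · intro j
      rw [testBit_exists (M.cm_lt _) (M.cm_eq _) j]
      constructor
      · rintro ⟨j', h1, h2⟩
        exact ⟨j', h1, (R.sameFace_iff H i j').2 h2.symm⟩
      · rintro ⟨j', h1, h2⟩
        exact ⟨j', h1, ((R.sameFace_iff H i j').1 h2).symm⟩
    · intro j
      rw [testBit_exists (M.cm'_lt _) (M.cm'_eq _) j]
      constructor
      · rintro ⟨j', h1, h2⟩
        exact ⟨j', h1, (R.sameFace_symm_iff H i j').2 h2.symm⟩
      · rintro ⟨j', h1, h2⟩
        exact ⟨j', h1, ((R.sameFace_symm_iff H i j').1 h2).symm⟩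

end Raw

/-! ### The two boards -/

set_option maxRecDepth 100000

/-- tables of A -/
def rawA : Raw 7 18 4 where
  src := ![0, 1, 0, 3, 0, 5, 1, 2, 1, 6, 2, 3, 3, 4, 4, 5, 5, 6]
  tgt := ![1, 0, 3, 0, 5, 0, 2, 1, 6, 1, 3, 2, 4, 3, 5, 4, 6, 5]
  sym := ![1, 0, 3, 2, 5, 4, 7, 6, 9, 8, 11, 10, 13, 12, 15, 14, 17, 16]
  rot := ![4, 6, 0, 12, 2, 16, 8, 10, 1, 17, 7, 3, 11, 14, 13, 5, 15, 9]
  rotInv := ![2, 8, 4, 11, 0, 15, 1, 10, 6, 17, 7, 12, 3, 14, 13, 16, 5, 9]
  lab := ![0, 2, 1, 0, 2, 1, 0, 3, 3, 2, 0, 3, 1, 3, 1, 3, 2, 3]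
  out₀ := 7

/-- masks of A -/
def tabA : Tab where
  out := [21, 322, 21, 6152, 21, 98336, 322, 1152, 322, 131584, 1152, 6152, 6152, 24576, 24576, 98336, 98336, 131584]
  inn := [641, 42, 9220, 42, 147472, 42, 2112, 641, 65792, 641, 9220, 2112, 36864, 9220, 147472, 36864, 65792, 147472]
  cells := [1097, 2182, 20516, 40984, 66066, 131361]

lemma goodA : rawA.Good where
  inj := by decide
  ne := by decide
  sym_src := by decide
  sym_tgt := by decide
  pos := by decide
  par := by decide
  left := by decide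
  right := by decide
  rot_src := by decide
  rot_cyc := by decide
  lab_face := by decide
  lab_cyc := by decide
  lab_surj := by decide
  eul := by decide
  even := by decide

lemma matchA : rawA.Match tabA ![1097, 20516, 66066, 174464] ![2182, 40984, 131361, 87616] where
  symx := by decide
  out_lt := by decide
  out := by decide
  inn_lt := by decide
  inn := by decide
  cm_lt := by decide
  cm_eq := by decide
  cm'_lt := by decide
  cm'_eq := by decide
  mem₁ := by decide
  mem₂ := by decide

/-- positions lost for the player to move -/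
def lostA : List ℕ :=
  [0, 72, 132, 288, 344, 356, 528, 664, 676, 1025, 1285, 1320, 2050, 2570, 2580, 4229, 4386, 4392,
4424, 4484, 4752, 5377, 5445, 6144, 6149, 6162, 6402, 6533, 6688, 6784, 8266, 8544, 8721, 8724,
8776, 8836, 9216, 9226, 9249, 9488, 9536, 9729, 9802, 10754, 10890, 16532, 16712, 16800, 17040,
17665, 17733, 18466, 18720, 18856, 19082, 19096, 20824, 20840, 20884, 20904, 21140, 21144,
21777, 21800, 22802, 23060, 23184, 32872, 33120, 33360, 33412, 33809, 34117, 34148, 34320,
34388, 35330, 35466, 41316, 41320, 41556, 41576, 41620, 41636, 42280, 42336, 42529, 43540,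
43554, 65684, 67618, 71712, 71813, 71841, 72197, 72225, 72226, 72352, 73800, 74321, 74344,
74404, 74753, 74826, 75281, 75297, 76305, 76322, 84514, 86164, 98304, 98310, 98313, 98321,
98370, 98440, 98897, 98944, 99330, 99398, 99402, 99857, 100360, 100489, 100490, 100497, 100873,
101000, 106566, 106644, 107140, 107520, 107586, 108033, 131176, 132113, 135300, 135512, 135572,
135586, 136465, 136482, 137218, 137349, 137490, 137506, 140304, 140362, 140370, 140554, 140561,
140562, 140624, 147456, 147462, 147465, 147490, 147524, 147585, 147776, 147874, 148484, 148549,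
148550, 148578, 148742, 148804, 149505, 149637, 149641, 149794, 151656, 151689, 151880, 153600,
153729, 153858, 165137, 172136]

lemma checkA : tabA.check 18 lostA = true := by decide +kernel

/-- tables of B -/
def rawB : Raw 8 20 4 where
  src := ![0, 1, 0, 3, 1, 2, 1, 5, 2, 3, 3, 4, 3, 6, 4, 5, 5, 7, 6, 7]
  tgt := ![1, 0, 3, 0, 2, 1, 5, 1, 3, 2, 4, 3, 6, 3, 5, 4, 7, 5, 7, 6]
  sym := ![1, 0, 3, 2, 5, 4, 7, 6, 9, 8, 11, 10, 13, 12, 15, 14, 17, 16, 19, 18]
  rot := ![2, 4, 0, 10, 6, 8, 1, 16, 5, 3, 12, 14, 9, 18, 11, 7, 15, 19, 13, 17]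
  rotInv := ![2, 6, 0, 9, 1, 8, 4, 15, 5, 12, 3, 14, 10, 18, 11, 16, 7, 19, 13, 17]
  lab := ![0, 2, 2, 0, 0, 1, 1, 2, 0, 1, 2, 3, 3, 1, 2, 3, 1, 3, 3, 1]
  out₀ := 11

/-- masks of B -/
def tabB : Tab where
  out := [5, 82, 5, 5640, 82, 288, 82, 98432, 288, 5640, 5640, 18432, 5640, 270336, 18432, 98432, 98432, 655360, 270336, 655360]
  inn := [161, 10, 10500, 10, 528, 161, 147520, 161, 10500, 528, 33792, 10500, 528384, 10500, 147520, 33792, 327680, 147520, 327680, 528384]
  cells := [281, 550, 598624, 397712, 17542, 34889]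

lemma goodB : rawB.Good where
  inj := by decide
  ne := by decide
  sym_src := by decide
  sym_tgt := by decide
  pos := by decide
  par := by decide
  left := by decide
  right := by decide
  rot_src := by decide
  rot_cyc := by decide
  lab_face := by decide
  lab_cyc := by decide
  lab_surj := by decide
  eul := by decide
  even := by decide

lemma matchB : rawB.Match tabB ![281, 598624, 17542, 432128] ![550, 397712, 34889, 615424] where
  symx := by decide
  out_lt := by decide
  out := by decide
  inn_lt := by decide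
  inn := by decide
  cm_lt := by decide
  cm_eq := by decide
  cm'_lt := by decide
  cm'_eq := by decide
  mem₁ := by decide
  mem₂ := by decide

/-- positions lost for the player to move -/
def lostB : List ℕ :=
  [524288, 524322, 524324, 524368, 524417, 524424, 524608, 524802, 525316, 525382, 525410, 525412,
525449, 525476, 525480, 525634, 525636, 525648, 525953, 525960, 526417, 526424, 526464, 526481,
526488, 526498, 526500, 526657, 526664, 526721, 526978, 532992, 533032, 533058, 533122, 533830,
534018, 534020, 534153, 534184, 535042, 535081, 540676, 540742, 540756, 540770, 540772, 540836,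
540840, 540996, 541252, 541313, 541716, 542022, 542036, 542345, 542376, 548900, 549190, 549378,
549544, 549972, 549986, 549988, 550466, 550468, 557088, 557097, 557137, 557154, 557201, 557218,
557220, 557377, 557448, 559137, 565282, 565762, 565801, 567394, 567424, 567441, 567448, 567458,
567460, 567681, 567688, 567841, 567874, 567938, 590336, 590376, 590402, 590466, 590884, 591174,
591362, 591528, 592386, 592425, 598096, 598145, 598152, 598336, 598529, 599124, 599177, 599204,
599208, 599362, 599364, 599376, 599681, 599682, 599684, 599688, 600145, 600152, 600192, 600209,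
600216, 600226, 600228, 600385, 600392, 600449, 600456, 600706, 606244, 606534, 606722, 606888,
607316, 607330, 607332, 607810, 607812, 614484, 614564, 614568, 614722, 615041, 615042, 615750,
615764, 616073, 616104, 622626, 623106, 623108, 623136, 623145, 624738, 625185, 625218, 625220,
630865, 631105, 631305, 632866, 633345, 633346, 633348]

lemma checkB : tabB.check 20 lostB = true := by decide +kernel


/-! ### The results -/

/-- The two outcomes exclude each other. -/
lemma not_moverLoses_of_moverWins {B : Board} {M : Set B.G.Dart} (h : MoverWins B M) :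
    ¬ MoverLoses B M := by
  refine MoverWins.rec (motive_1 := fun M _ => ¬ MoverLoses B M)
    (motive_2 := fun M _ => ¬ MoverWins B M) ?_ ?_ ?_ h
  · rintro M d hleg hc ⟨_, h1, _⟩
    exact h1 d hleg hc
  · rintro M d hleg _ ih ⟨_, _, h2⟩
    exact ih (h2 d hleg)
  · intro M h1 _ ih hw
    cases hw with
    | cycle _ d hleg hc => exact h1 d hleg hc
    | move _ d hleg hl => exact ih d hleg hl

/-- Every vertex has degree at least two. -/
def MinDegreeTwo (B : Board) : Prop := ∀ v, ∃ a b, a ≠ b ∧ B.G.Adj v a ∧ B.G.Adj v b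

lemma Raw.cliqueFree {n N F : ℕ} (R : Raw n N F) (H : R.Good)
    (h : ∀ i j, R.tgt i = R.src j → ∀ k, R.tgt j = R.src k → R.tgt k ≠ R.src i) :
    (R.board H).G.CliqueFree 3 := by
  intro s hs
  rw [SimpleGraph.is3Clique_iff] at hs
  obtain ⟨a, b, c, ⟨i, h1, h2⟩, ⟨k, h3, h4⟩, ⟨j, h5, h6⟩, _⟩ := hs
  refine h i j (h2.trans h5.symm) (R.sym k) ?_ ?_
  · rw [H.sym_src, h6, h4]
  · rw [H.sym_tgt, h3, h1]

lemma Raw.minDegreeTwo {n N F : ℕ} (R : Raw n N F) (H : R.Good)
    (h : ∀ v, ∃ i j, R.src i = v ∧ R.src j = v ∧ R.tgt i ≠ R.tgt j) :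
    MinDegreeTwo (R.board H) := by
  intro v
  obtain ⟨i, j, h1, h2, h3⟩ := h v
  exact ⟨R.tgt i, R.tgt j, h3, ⟨i, h1, rfl⟩, ⟨j, h2, rfl⟩⟩

lemma decode_zero {B : Board} {N : ℕ} (E : Fin N ≃ B.G.Dart) : decode E 0 = ∅ := by
  ext d
  simp [decode]

/-- The board of three quadrangles around a vertex (9 edges) is won by Player 2. -/
theorem player2Wins_A : Player2Wins (rawA.board goodA) := by
  have h := sound (rawA.describes goodA matchA) lostA checkA (2 ^ 18) 0 (by norm_num) (by norm_num)
    (by decide)
  have hz : decode (B := rawA.board goodA) (rawA.enum goodA) 0 = ∅ := decode_zero _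
  show MoverLoses (rawA.board goodA) ∅
  exact hz ▸ h

/-- The board with 10 edges is won by Player 1. -/
theorem player1Wins_B : Player1Wins (rawB.board goodB) := by
  have D := rawB.describes goodB matchB
  have hz : decode (B := rawB.board goodB) (rawB.enum goodB) 0 = ∅ := decode_zero _
  have h := sound D lostB checkB (2 ^ 20) (0 ||| 2 ^ 19) (by norm_num) (by norm_num) (by decide)
  refine MoverWins.move _ (rawB.enum goodB 19) ?_ ?_
  · have := (legal_iff D 0 (19 : Fin 20)).2 (by decide)
    exact hz ▸ this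
  · have h2 := insert_decode (B := rawB.board goodB) (rawB.enum goodB) 0 (19 : Fin 20)
    rw [hz] at h2
    exact h2 ▸ h

/-- **Main result.**  The parity rule for triangle-free boards fails in both directions: there is a
triangle-free game board with 9 edges (and minimum degree 2) on which Player 2 has a winning
strategy, and one with 10 edges (and minimum degree 2) on which Player 1 has a winning strategy.
Hence it is not true that on every triangle-free board Player 1 wins if the number of edges is odd
and Player 2 wins if it is even. -/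
theorem result :
    (∃ B : Board, B.G.CliqueFree 3 ∧ MinDegreeTwo B ∧ Nat.card B.G.edgeSet = 9 ∧
      Player2Wins B) ∧
    (∃ B : Board, B.G.CliqueFree 3 ∧ MinDegreeTwo B ∧ Nat.card B.G.edgeSet = 10 ∧
      Player1Wins B) ∧
    ¬ (∀ B : Board, B.G.CliqueFree 3 → (Odd (Nat.card B.G.edgeSet) → Player1Wins B) ∧
      (Even (Nat.card B.G.edgeSet) → Player2Wins B)) := by
  have hA : (rawA.board goodA).G.CliqueFree 3 := rawA.cliqueFree goodA (by decide)
  have hB : (rawB.board goodB).G.CliqueFree 3 := rawB.cliqueFree goodB (by decide)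
  have cA : Nat.card (rawA.board goodA).G.edgeSet = 9 := rawA.card_edges goodA
  have cB : Nat.card (rawB.board goodB).G.edgeSet = 10 := rawB.card_edges goodB
  refine ⟨⟨_, hA, rawA.minDegreeTwo goodA (by decide), cA, player2Wins_A⟩,
    ⟨_, hB, rawB.minDegreeTwo goodB (by decide), cB, player1Wins_B⟩, fun h => ?_⟩
  have h1 := (h _ hA).1 (by rw [cA]; decide)
  exact not_moverLoses_of_moverWins h1 player2Wins_A

end Pool.Agent.Results.MP_b0ae03_co.ParityFails
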